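import Mathlib

/-!
# Pairs of triples, packings, geometry (towards tau <= 14/5 nu)
-/

set_option linter.unusedSectionVars false

namespace Pool.Agent.TZ

open Finset

variable {V : Type*} [DecidableEq V]

/-- the pairs of a set -/
def prs (s : Finset V) : Finset (Finset V) := s.powersetCard 2

/-- the pairs of the members of `X` -/
def EE (X : Finset (Finset V)) : Finset (Finset V) := X.biUnion prs

/-- pairwise without common pair -/
def Pk (X : Finset (Finset V)) : Prop := ∀ s ∈ X, ∀ t ∈ X, s ≠ t → Disjoint (prs s) (prs t)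

theorem mem_prs {g s : Finset V} : g ∈ prs s ↔ g ⊆ s ∧ g.card = 2 := by
  unfold prs
  exact mem_powersetCard

theorem mem_EE {g : Finset V} {X : Finset (Finset V)} : g ∈ EE X ↔ ∃ s ∈ X, g ∈ prs s := by
  simp [EE]

theorem card_prs {s : Finset V} (hs : s.card = 3) : (prs s).card = 3 := by
  simp [prs, card_powersetCard, hs]

theorem card_EE_le {X : Finset (Finset V)} (hX : ∀ s ∈ X, s.card = 3) :
    (EE X).card ≤ 3 * X.card := by
  unfold EE
  refine le_trans card_biUnion_le ?_
  rw [sum_congr rfl (fun s hs => card_prs (hX s hs))]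
  simp [mul_comm]

theorem EE_mono {X Y : Finset (Finset V)} (h : X ⊆ Y) : EE X ⊆ EE Y :=
  biUnion_subset_biUnion_of_subset_left _ h

theorem EE_union (X Y : Finset (Finset V)) : EE (X ∪ Y) = EE X ∪ EE Y := union_biUnion

theorem prs_sub_EE {s : Finset V} {X : Finset (Finset V)} (h : s ∈ X) : prs s ⊆ EE X :=
  subset_biUnion_of_mem prs h

theorem disj_EE {s : Finset V} {X : Finset (Finset V)} :
    Disjoint (prs s) (EE X) ↔ ∀ x ∈ X, Disjoint (prs s) (prs x) := by
  unfold EE
  exact disjoint_biUnion_right _ _ _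

theorem hit_iff {s t : Finset V} : ¬ Disjoint (prs s) (prs t) ↔ ∃ g, g ∈ prs s ∧ g ∈ prs t := by
  rw [not_disjoint_iff]

theorem hit_EE {s : Finset V} {X : Finset (Finset V)} :
    ¬ Disjoint (prs s) (EE X) ↔ ∃ x ∈ X, ¬ Disjoint (prs s) (prs x) := by
  rw [disj_EE]
  push Not
  rfl

theorem prs_nonempty {s : Finset V} (hs : s.card = 3) : (prs s).Nonempty := by
  rw [← card_pos, card_prs hs]
  norm_num

theorem hit_self {s : Finset V} (hs : s.card = 3) : ¬ Disjoint (prs s) (prs s) := by
  rw [disjoint_self]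
  exact (prs_nonempty hs).ne_empty

/-- two distinct triples share at most one pair -/
theorem prs_uniq {s t g g' : Finset V} (hs : s.card = 3) (ht : t.card = 3) (hne : s ≠ t)
    (h1 : g ∈ prs s) (h2 : g ∈ prs t) (h3 : g' ∈ prs s) (h4 : g' ∈ prs t) : g = g' := by
  rw [mem_prs] at h1 h2 h3 h4
  have hi : (s ∩ t).card ≤ 2 := by
    by_contra hc
    have h5 : s ∩ t = s := eq_of_subset_of_card_le inter_subset_left (by omega)
    have h6 : s ∩ t = t := eq_of_subset_of_card_le inter_subset_right (by omega)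
    exact hne (h5.symm.trans h6)
  have e1 : g = s ∩ t := eq_of_subset_of_card_le (subset_inter h1.1 h2.1) (by omega)
  have e2 : g' = s ∩ t := eq_of_subset_of_card_le (subset_inter h3.1 h4.1) (by omega)
  rw [e1, e2]

theorem Pk.mono {X Y : Finset (Finset V)} (h : Pk Y) (hs : X ⊆ Y) : Pk X :=
  fun s h1 t h2 hne => h s (hs h1) t (hs h2) hne

theorem Pk.union {X Y : Finset (Finset V)} (hX : Pk X) (hY : Pk Y)
    (h : ∀ x ∈ X, ∀ y ∈ Y, Disjoint (prs x) (prs y)) : Pk (X ∪ Y) := by
  intro s hs t ht hne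
  rcases mem_union.mp hs with h1 | h1 <;> rcases mem_union.mp ht with h2 | h2
  · exact hX s h1 t h2 hne
  · exact h s h1 t h2
  · exact (h t h2 s h1).symm
  · exact hY s h1 t h2 hne

theorem Pk.insert {X : Finset (Finset V)} {s : Finset V} (hX : Pk X)
    (h : Disjoint (prs s) (EE X)) : Pk (insert s X) := by
  rw [disj_EE] at h
  intro a ha b hb hne
  rcases mem_insert.mp ha with h1 | h1 <;> rcases mem_insert.mp hb with h2 | h2
  · exact absurd (h1.trans h2.symm) hne
  · rw [h1]; exact h b h2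
  · rw [h2]; exact (h a h1).symm
  · exact hX a h1 b h2 hne

/-- a pair of `E(Q)` belongs to only one member of the packing `Q` -/
theorem Pk.uniq {Q : Finset (Finset V)} (hQ : Pk Q) {x y g : Finset V} (hx : x ∈ Q) (hy : y ∈ Q)
    (h1 : g ∈ prs x) (h2 : g ∈ prs y) : x = y := by
  by_contra hne
  exact (disjoint_left.mp (hQ x hx y hy hne)) h1 h2

theorem exists_max (F : Finset (Finset V)) : ∃ A ⊆ F, Pk A ∧
    ∀ X ⊆ F, Pk X → X.card ≤ A.card := by
  classical
  obtain ⟨A, hA, hmax⟩ := exists_max_image (F.powerset.filter Pk) card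
    ⟨∅, by simp [Pk]⟩
  rw [mem_filter, mem_powerset] at hA
  exact ⟨A, hA.1, hA.2, fun X hX hP => hmax X (by rw [mem_filter, mem_powerset]; exact ⟨hX, hP⟩)⟩

/-- a maximum packing is hit by every triple -/
theorem hit_max {F A : Finset (Finset V)} (hF : ∀ s ∈ F, s.card = 3) (hA : A ⊆ F) (hp : Pk A)
    (hm : ∀ X ⊆ F, Pk X → X.card ≤ A.card) {s : Finset V} (hs : s ∈ F) :
    ¬ Disjoint (prs s) (EE A) := by
  intro hd
  have hn : s ∉ A := by
    intro h
    exact hit_self (hF s hs) (disj_EE.mp hd s h)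
  have := hm (insert s A) (insert_subset hs hA) (hp.insert hd)
  rw [card_insert_of_notMem hn] at this
  omega

/-! ## Swaps -/

theorem swap {Q A : Finset (Finset V)} (q : Finset V → Finset V) (hQ : Pk Q) (hA : Pk A)
    (hq : ∀ t ∈ A, q t ∈ Q) (hd : ∀ t ∈ A, ∀ x ∈ Q, x ≠ q t → Disjoint (prs t) (prs x))
    (hi : Set.InjOn q A) (hAQ : Disjoint A Q) {B : Finset (Finset V)} (hB : B ⊆ A) :
    Pk ((Q \ B.image q) ∪ B) ∧ ((Q \ B.image q) ∪ B).card = Q.card := by
  constructor
  · refine Pk.union (hQ.mono sdiff_subset) (hA.mono hB) ?_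
    intro x hx y hy
    rw [mem_sdiff, mem_image] at hx
    refine (hd y (hB hy) x hx.1 ?_).symm
    intro he
    exact hx.2 ⟨y, hy, he.symm⟩
  · have h1 : Disjoint (Q \ B.image q) B := by
      refine disjoint_of_subset_left sdiff_subset ?_
      exact (disjoint_of_subset_left hB hAQ).symm
    have h2 : B.image q ⊆ Q := by
      intro x hx
      obtain ⟨t, ht, rfl⟩ := mem_image.mp hx
      exact hq t (hB ht)
    have h3 : (B.image q).card = B.card := card_image_of_injOn (hi.mono (by exact_mod_cast hB))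
    rw [card_union_of_disjoint h1, card_sdiff_of_subset h2, h3]
    have h4 := card_le_card h2
    omega

theorem two_hits {Q A : Finset (Finset V)} (q : Finset V → Finset V) {s : Finset V}
    (hs : ¬ Disjoint (prs s) (EE ((Q \ (A.filter
      (fun t => ¬ Disjoint (prs s) (prs (q t)))).image q) ∪ (A.filter
      (fun t => ¬ Disjoint (prs s) (prs (q t)))))))
    (hav : Disjoint (prs s) (EE (Q \ A.image q))) :
    ∃ t ∈ A, ¬ Disjoint (prs s) (prs t) ∧ ¬ Disjoint (prs s) (prs (q t)) := by
  obtain ⟨x, hx, hx2⟩ := hit_EE.mp hs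
  rw [mem_union, mem_sdiff] at hx
  rcases hx with ⟨h1, h2⟩ | h1
  · exfalso
    by_cases h3 : x ∈ A.image q
    · obtain ⟨t, ht, rfl⟩ := mem_image.mp h3
      apply h2
      exact mem_image.mpr ⟨t, mem_filter.mpr ⟨ht, hx2⟩, rfl⟩
    · exact hx2 (disj_EE.mp hav x (mem_sdiff.mpr ⟨h1, h3⟩))
  · rw [mem_filter] at h1
    exact ⟨x, h1.1, hx2, h1.2⟩

/-! ## Geometry -/

theorem prs_triple {x y v : V} (hxy : x ≠ y) (hxv : x ≠ v) (hyv : y ≠ v) :
    prs ({x, y, v} : Finset V) = {{x, y}, {x, v}, {y, v}} := by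
  have hc : ({x, y, v} : Finset V).card = 3 := by
    rw [card_eq_three]
    exact ⟨x, y, v, hxy, hxv, hyv, rfl⟩
  symm
  apply eq_of_subset_of_card_le
  · intro g hg
    simp only [mem_insert, mem_singleton] at hg
    rw [mem_prs]
    rcases hg with rfl | rfl | rfl
    · exact ⟨by intro a; simp; tauto, card_pair hxy⟩
    · exact ⟨by intro a; simp; tauto, card_pair hxv⟩
    · exact ⟨by intro a; simp; tauto, card_pair hyv⟩
  · rw [card_prs hc]
    have : ({({x, y} : Finset V), {x, v}, {y, v}} : Finset (Finset V)).card = 3 := by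
      rw [card_eq_three]
      refine ⟨_, _, _, ?_, ?_, ?_, rfl⟩
      · intro h
        have : y ∈ ({x, v} : Finset V) := by rw [← h]; simp
        simp at this
        tauto
      · intro h
        have : x ∈ ({y, v} : Finset V) := by rw [← h]; simp
        simp at this
        tauto
      · intro h
        have : x ∈ ({y, v} : Finset V) := by rw [← h]; simp
        simp at this
        tauto
    omega

/-- coordinates of two triples sharing a pair -/
theorem coords {t p f : Finset V} (ht : t.card = 3) (hp : p.card = 3) (htp : t ≠ p)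
    (hft : f ∈ prs t) (hfp : f ∈ prs p) : ∃ x y v z : V, x ≠ y ∧ x ≠ v ∧ y ≠ v ∧ x ≠ z ∧ y ≠ z ∧
      v ≠ z ∧ f = {x, y} ∧ t = {x, y, v} ∧ p = {x, y, z} := by
  rw [mem_prs] at hft hfp
  obtain ⟨x, y, hxy, hf⟩ := card_eq_two.mp hft.2
  have h1 : (t \ f).card = 1 := by rw [card_sdiff_of_subset hft.1]; omega
  have h2 : (p \ f).card = 1 := by rw [card_sdiff_of_subset hfp.1]; omega
  obtain ⟨v, hv⟩ := card_eq_one.mp h1
  obtain ⟨z, hz⟩ := card_eq_one.mp h2
  have hv' : v ∈ t \ f := by rw [hv]; simp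
  have hz' : z ∈ p \ f := by rw [hz]; simp
  have et : t = {x, y, v} := by
    rw [← sdiff_union_of_subset hft.1, hv, hf]
    ext a; simp; tauto
  have ep : p = {x, y, z} := by
    rw [← sdiff_union_of_subset hfp.1, hz, hf]
    ext a; simp; tauto
  rw [mem_sdiff, hf] at hv' hz'
  simp only [mem_insert, mem_singleton, not_or] at hv' hz'
  refine ⟨x, y, v, z, hxy, fun h => hv'.2.1 h.symm, fun h => hv'.2.2 h.symm,
    fun h => hz'.2.1 h.symm, fun h => hz'.2.2 h.symm, ?_, hf, et, ep⟩
  rintro rfl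
  exact htp (et.trans ep.symm)

theorem geo {s t p f : Finset V} (hs : s.card = 3) (ht : t.card = 3) (hp : p.card = 3)
    (htp : t ≠ p) (hft : f ∈ prs t) (hfp : f ∈ prs p) (h1 : ¬ Disjoint (prs s) (prs t))
    (h2 : ¬ Disjoint (prs s) (prs p)) (hfs : f ∉ prs s) :
    ∃ g1 g2 : Finset V, g1 ∈ prs t ∧ g1 ∉ prs p ∧ g2 ∈ prs p ∧ g2 ∉ prs t ∧
      prs s = {g1, g2, symmDiff t p} := by
  obtain ⟨x, y, v, z, hxy, hxv, hyv, hxz, hyz, hvz, hf, et, ep⟩ := coords ht hp htp hft hfp
  obtain ⟨g1, h1s, h1t⟩ := hit_iff.mp h1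
  obtain ⟨g2, h2s, h2p⟩ := hit_iff.mp h2
  have hgf1 : g1 ≠ f := fun h => hfs (h ▸ h1s)
  have hgf2 : g2 ≠ f := fun h => hfs (h ▸ h2s)
  have hn1 : g1 ∉ prs p := fun h => hgf1 (prs_uniq ht hp htp h1t h hft hfp)
  have hn2 : g2 ∉ prs t := fun h => hgf2 (prs_uniq ht hp htp h h2p hft hfp)
  have eo : symmDiff t p = {v, z} := by
    rw [et, ep]
    ext a
    simp only [mem_symmDiff, mem_insert, mem_singleton]
    constructor
    · rintro (⟨h, h'⟩ | ⟨h, h'⟩) <;> tauto
    · rintro (rfl | rfl)
      · left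
        refine ⟨Or.inr (Or.inr rfl), ?_⟩
        rintro (h | h | h)
        · exact hxv h.symm
        · exact hyv h.symm
        · exact hvz h
      · right
        refine ⟨Or.inr (Or.inr rfl), ?_⟩
        rintro (h | h | h)
        · exact hxz h.symm
        · exact hyz h.symm
        · exact hvz h.symm
  refine ⟨g1, g2, h1t, hn1, h2p, hn2, ?_⟩
  have h1t' := h1t
  have h2p' := h2p
  rw [et, prs_triple hxy hxv hyv] at h1t'
  rw [ep, prs_triple hxy hxz hyz] at h2p'
  simp only [mem_insert, mem_singleton] at h1t' h2p'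
  rw [mem_prs] at h1s h2s
  -- a common vertex
  have key : ∀ a b : V, a ≠ b → a ≠ v → b ≠ v → a ≠ z → b ≠ z → v ≠ z →
      ¬ (({a, v} : Finset V) ⊆ s ∧ ({b, z} : Finset V) ⊆ s) := by
    intro a b hab hav hbv haz hbz hvz' hh
    have hsub : ({a, b, v, z} : Finset V) ⊆ s := by
      intro c hc
      simp only [mem_insert, mem_singleton] at hc
      rcases hc with rfl | rfl | rfl | rfl
      · exact hh.1 (by simp)
      · exact hh.2 (by simp)
      · exact hh.1 (by simp)
      · exact hh.2 (by simp)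
    have hc4 : ({a, b, v, z} : Finset V).card = 4 := by
      rw [card_insert_of_notMem, card_insert_of_notMem, card_pair hvz']
      · simp [hbv, hbz]
      · simp [hab, hav, haz]
    have := card_le_card hsub
    omega
  have fin : ∀ a : V, a ≠ v → a ≠ z → ({a, v} : Finset V) ⊆ s → ({a, z} : Finset V) ⊆ s →
      prs s = {{a, v}, {a, z}, {v, z}} := by
    intro a hav haz ha1 ha2
    have hse : s = {a, v, z} := by
      symm
      apply eq_of_subset_of_card_le
      · intro c hc
        simp only [mem_insert, mem_singleton] at hc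
        rcases hc with rfl | rfl | rfl
        · exact ha1 (by simp)
        · exact ha1 (by simp)
        · exact ha2 (by simp)
      · rw [hs, card_eq_three.mpr ⟨a, v, z, hav, haz, hvz, rfl⟩]
    rw [hse, prs_triple hav haz hvz]
  rw [eo]
  rcases h1t' with e1 | e1 | e1
  · exact absurd (e1.trans hf.symm) hgf1
  · rcases h2p' with e2 | e2 | e2
    · exact absurd (e2.trans hf.symm) hgf2
    · rw [e1, e2]
      rw [e1] at h1s
      rw [e2] at h2s
      exact fin x hxv hxz h1s.1 h2s.1
    · exfalso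
      rw [e1] at h1s
      rw [e2] at h2s
      exact key x y hxy hxv hyv hxz hyz hvz ⟨h1s.1, h2s.1⟩
  · rcases h2p' with e2 | e2 | e2
    · exact absurd (e2.trans hf.symm) hgf2
    · exfalso
      rw [e1] at h1s
      rw [e2] at h2s
      exact key y x hxy.symm hyv hxv hyz hxz hvz ⟨h1s.1, h2s.1⟩
    · rw [e1, e2]
      rw [e1] at h1s
      rw [e2] at h2s
      exact fin y hyv hyz h1s.1 h2s.1

/-- the opposite pair -/
theorem opp_card {t p f : Finset V} (ht : t.card = 3) (hp : p.card = 3) (htp : t ≠ p)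
    (hft : f ∈ prs t) (hfp : f ∈ prs p) : (symmDiff t p).card = 2 ∧ Disjoint f (symmDiff t p) := by
  obtain ⟨x, y, v, z, hxy, hxv, hyv, hxz, hyz, hvz, hf, et, ep⟩ := coords ht hp htp hft hfp
  have eo : symmDiff t p = {v, z} := by
    rw [et, ep]
    ext a
    simp only [mem_symmDiff, mem_insert, mem_singleton]
    constructor
    · rintro (⟨h, h'⟩ | ⟨h, h'⟩) <;> tauto
    · rintro (rfl | rfl)
      · left
        refine ⟨Or.inr (Or.inr rfl), ?_⟩
        rintro (h | h | h)
        · exact hxv h.symm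
        · exact hyv h.symm
        · exact hvz h
      · right
        refine ⟨Or.inr (Or.inr rfl), ?_⟩
        rintro (h | h | h)
        · exact hxz h.symm
        · exact hyz h.symm
        · exact hvz h.symm
  rw [eo, hf]
  refine ⟨card_pair hvz, ?_⟩
  simp only [disjoint_insert_left, disjoint_singleton_left, mem_insert, mem_singleton, not_or]
  exact ⟨⟨hxv, hxz⟩, hyv, hyz⟩

/-- no triple contains the common pair and the opposite pair -/
theorem no_four {s t p f : Finset V} (hs : s.card = 3) (ht : t.card = 3) (hp : p.card = 3)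
    (htp : t ≠ p) (hft : f ∈ prs t) (hfp : f ∈ prs p) (h1 : f ∈ prs s)
    (h2 : symmDiff t p ∈ prs s) : False := by
  obtain ⟨hc, hd⟩ := opp_card ht hp htp hft hfp
  rw [mem_prs] at h1 h2
  have := card_le_card (union_subset h1.1 h2.1)
  rw [card_union_of_disjoint hd] at this
  omega

end Pool.Agent.TZ
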