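import Pool.Agent.Lib_helper37.TZ.Level3

/-!
# The bipartition cover and the theorem (tau <= 14/5 nu)
-/

set_option linter.unusedSectionVars false

namespace Pool.Agent.TZ

open Finset

variable {V : Type*} [DecidableEq V]

/-- the pair `e` is not split by `S` -/
def ins (S e : Finset V) : Prop := (e ∩ S).card ≠ 1

/-- the pair `e` is split by `S` -/
def cro (S e : Finset V) : Prop := (e ∩ S).card = 1

instance (S : Finset V) : DecidablePred (ins S) := fun e => by unfold ins; infer_instance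
instance (S : Finset V) : DecidablePred (cro S) := fun e => by unfold cro; infer_instance

theorem not_ins {S e : Finset V} : ¬ ins S e ↔ cro S e := by
  unfold ins cro
  push Not
  rfl

theorem pair_inter {a b : V} (hab : a ≠ b) (S : Finset V) :
    (({a, b} : Finset V) ∩ S).card = (if a ∈ S then 1 else 0) + (if b ∈ S then 1 else 0) := by
  have e : (({a, b} : Finset V) ∩ S) = ({a, b} : Finset V).filter (fun c => c ∈ S) := by
    ext c; simp
  rw [e, filter_insert, filter_singleton]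
  by_cases ha : a ∈ S <;> by_cases hb : b ∈ S <;> simp [ha, hb, hab]

theorem cro_pair {a b : V} (hab : a ≠ b) (S : Finset V) :
    cro S {a, b} ↔ ((a ∈ S ∧ b ∉ S) ∨ (a ∉ S ∧ b ∈ S)) := by
  unfold cro
  rw [pair_inter hab]
  by_cases ha : a ∈ S <;> by_cases hb : b ∈ S <;> simp [ha, hb]

/-- every triple has a pair that is not split -/
theorem exists_ins {s : Finset V} (hs : s.card = 3) (S : Finset V) : ∃ g ∈ prs s, ins S g := by
  obtain ⟨x, y, v, hxy, hxv, hyv, rfl⟩ := card_eq_three.mp hs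
  rw [prs_triple hxy hxv hyv]
  by_contra hc
  push Not at hc
  have h1 := not_ins.mp (hc {x, y} (by simp))
  have h2 := not_ins.mp (hc {x, v} (by simp))
  have h3 := not_ins.mp (hc {y, v} (by simp))
  rw [cro_pair hxy] at h1
  rw [cro_pair hxv] at h2
  rw [cro_pair hyv] at h3
  tauto

theorem toggle {a b : V} (hab : a ≠ b) (S : Finset V) :
    cro S {a, b} ↔ ins (symmDiff S {a}) {a, b} := by
  rw [← not_iff_not, not_ins, cro_pair hab, cro_pair hab]
  have h1 : a ∈ symmDiff S {a} ↔ a ∉ S := by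
    rw [mem_symmDiff]; simp
  have h2 : b ∈ symmDiff S {a} ↔ b ∈ S := by
    rw [mem_symmDiff]
    simp [hab.symm]
  rw [h1, h2]
  tauto

theorem count_both {U e : Finset V} (he : e.card = 2) (heU : e ⊆ U) :
    2 * (U.powerset.filter (fun S => ins S e)).card = 2 ^ U.card ∧
    2 * (U.powerset.filter (fun S => cro S e)).card = 2 ^ U.card := by
  obtain ⟨a, b, hab, rfl⟩ := card_eq_two.mp he
  have haU : a ∈ U := heU (by simp)
  have hin : ∀ S ∈ U.powerset, symmDiff S {a} ∈ U.powerset := by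
    intro S hS
    rw [mem_powerset] at hS ⊢
    intro c hc
    rw [mem_symmDiff, mem_singleton] at hc
    rcases hc with ⟨h, _⟩ | ⟨rfl, _⟩
    · exact hS h
    · exact haU
  have hinj : Function.Injective (fun S : Finset V => symmDiff S {a}) := by
    intro S T h
    exact symmDiff_left_injective _ h
  have h1 : (U.powerset.filter (fun S => cro S {a, b})).card ≤
      (U.powerset.filter (fun S => ins S {a, b})).card := by
    refine card_le_card_of_injOn (fun S => symmDiff S {a}) ?_ hinj.injOn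
    intro S hS
    have hS : S ∈ U.powerset.filter (fun S => cro S {a, b}) := hS
    rw [mem_filter] at hS
    show _ ∈ ((U.powerset.filter (fun S => ins S {a, b}) : Finset (Finset V)) : Set (Finset V))
    rw [mem_coe, mem_filter]
    exact ⟨hin S hS.1, (toggle hab S).mp hS.2⟩
  have h2 : (U.powerset.filter (fun S => ins S {a, b})).card ≤
      (U.powerset.filter (fun S => cro S {a, b})).card := by
    refine card_le_card_of_injOn (fun S => symmDiff S {a}) ?_ hinj.injOn
    intro S hS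
    have hS : S ∈ U.powerset.filter (fun S => ins S {a, b}) := hS
    rw [mem_filter] at hS
    show _ ∈ ((U.powerset.filter (fun S => cro S {a, b}) : Finset (Finset V)) : Set (Finset V))
    rw [mem_coe, mem_filter]
    refine ⟨hin S hS.1, ?_⟩
    rw [toggle hab, symmDiff_assoc, symmDiff_self, symmDiff_bot]
    exact hS.2
  have h3 : (U.powerset.filter (fun S => ins S {a, b})).card +
      (U.powerset.filter (fun S => cro S {a, b})).card = 2 ^ U.card := by
    rw [← card_powerset, ← card_filter_add_card_filter_not (s := U.powerset)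
      (fun S => ins S {a, b})]
    congr 2
    ext S
    rw [mem_filter, mem_filter, not_ins]
  omega

theorem sum_ins {U : Finset V} {X : Finset (Finset V)} (hX : ∀ c ∈ X, c.card = 2 ∧ c ⊆ U) :
    2 * ∑ S ∈ U.powerset, (X.filter (ins S)).card = X.card * 2 ^ U.card := by
  have h1 : ∑ S ∈ U.powerset, (X.filter (ins S)).card =
      ∑ c ∈ X, (U.powerset.filter (fun S => ins S c)).card := by
    simp only [card_filter]
    exact sum_comm
  rw [h1, mul_sum, sum_congr rfl (fun c hc => (count_both (hX c hc).1 (hX c hc).2).1)]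
  simp

theorem sum_cro {U : Finset V} {X : Finset (Finset V)} (hX : ∀ c ∈ X, c.card = 2 ∧ c ⊆ U) :
    2 * ∑ S ∈ U.powerset, (X.filter (cro S)).card = X.card * 2 ^ U.card := by
  have h1 : ∑ S ∈ U.powerset, (X.filter (cro S)).card =
      ∑ c ∈ X, (U.powerset.filter (fun S => cro S c)).card := by
    simp only [card_filter]
    exact sum_comm
  rw [h1, mul_sum, sum_congr rfl (fun c hc => (count_both (hX c hc).1 (hX c hc).2).2)]
  simp

theorem exists_split {X1 X2 Y1 Y2 : Finset (Finset V)} (h1 : ∀ c ∈ X1, c.card = 2)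
    (h2 : ∀ c ∈ X2, c.card = 2) (h3 : ∀ c ∈ Y1, c.card = 2) (h4 : ∀ c ∈ Y2, c.card = 2) :
    ∃ S : Finset V, 2 * ((X1.filter (ins S)).card + (X2.filter (ins S)).card +
      (Y1.filter (cro S)).card + (Y2.filter (cro S)).card) ≤
        X1.card + X2.card + Y1.card + Y2.card := by
  set U : Finset V := (X1 ∪ X2 ∪ Y1 ∪ Y2).biUnion id with hU
  have hsub : ∀ c ∈ X1 ∪ X2 ∪ Y1 ∪ Y2, c ⊆ U := fun c hc =>
    subset_biUnion_of_mem (fun x : Finset V => x) hc
  have g1 : ∀ c ∈ X1, c.card = 2 ∧ c ⊆ U := fun c hc => ⟨h1 c hc, hsub c (by simp [hc])⟩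
  have g2 : ∀ c ∈ X2, c.card = 2 ∧ c ⊆ U := fun c hc => ⟨h2 c hc, hsub c (by simp [hc])⟩
  have g3 : ∀ c ∈ Y1, c.card = 2 ∧ c ⊆ U := fun c hc => ⟨h3 c hc, hsub c (by simp [hc])⟩
  have g4 : ∀ c ∈ Y2, c.card = 2 ∧ c ⊆ U := fun c hc => ⟨h4 c hc, hsub c (by simp [hc])⟩
  have s1 := sum_ins g1
  have s2 := sum_ins g2
  have s3 := sum_cro g3
  have s4 := sum_cro g4
  have hle : ∑ S ∈ U.powerset, 2 * ((X1.filter (ins S)).card + (X2.filter (ins S)).card +
      (Y1.filter (cro S)).card + (Y2.filter (cro S)).card) ≤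
      ∑ _S ∈ U.powerset, (X1.card + X2.card + Y1.card + Y2.card) := by
    rw [← mul_sum, sum_add_distrib, sum_add_distrib, sum_add_distrib, sum_const, card_powerset,
      smul_eq_mul]
    rw [mul_add, mul_add, mul_add, s1, s2, s3, s4]
    apply le_of_eq
    ring
  obtain ⟨S, _, hS⟩ := exists_le_of_sum_le ⟨∅, by simp⟩ hle
  exact ⟨S, hS⟩

section
variable {H P A W R B : Finset (Finset V)} {q f : Finset V → Finset V}

/-- cover (i) -/
theorem D3.cover_bip (h : D3 H P A W R B q f) :
    ∃ C, Cov H C ∧ 2 * C.card + 2 * B.card ≤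
      3 * P.card + 5 * A.card + 3 * W.card + (KK H A W R B q f).card := by
  have c2 := h.C2_pair
  have pP : ∀ c ∈ EE P, c.card = 2 := fun c hc => card_of_mem_EE hc
  obtain ⟨S, hS⟩ := exists_split (X1 := EE P) (X2 := C2 H A W R B q f \ EE P)
    (Y1 := EE A ∩ EE P) (Y2 := C2 H A W R B q f ∩ EE P) pP
    (fun c hc => c2 c (mem_sdiff.mp hc).1) (fun c hc => pP c (mem_inter.mp hc).2)
    (fun c hc => pP c (mem_inter.mp hc).2)
  refine ⟨((EE P).filter (ins S) ∪ (C2 H A W R B q f \ EE P).filter (ins S)) ∪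
    (((EE A ∩ EE P).filter (cro S) ∪ (C2 H A W R B q f ∩ EE P).filter (cro S)) ∪
      (EE A \ EE P)), ⟨?_, ?_⟩, ?_⟩
  · intro c hc
    simp only [mem_union, mem_filter, mem_sdiff, mem_inter] at hc
    rcases hc with (hc | hc) | ((hc | hc) | hc)
    · exact pP c hc.1
    · exact c2 c hc.1.1
    · exact pP c hc.1.2
    · exact pP c hc.1.2
    · exact card_of_mem_EE hc.1
  · intro s hs
    by_cases h0 : ∃ g ∈ prs s, g ∈ EE P ∧ ins S g
    · obtain ⟨g, hg1, hg2, hg3⟩ := h0
      exact ⟨g, by simp only [mem_union, mem_filter]; exact Or.inl (Or.inl ⟨hg2, hg3⟩), hg1⟩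
    push Not at h0
    by_cases hA : Disjoint (prs s) (EE A)
    swap
    · obtain ⟨g, hg1, hg2⟩ := not_disjoint_iff.mp hA
      refine ⟨g, ?_, hg1⟩
      simp only [mem_union, mem_filter, mem_sdiff, mem_inter]
      by_cases hgP : g ∈ EE P
      · exact Or.inr (Or.inl (Or.inl ⟨⟨hg2, hgP⟩, not_ins.mp (h0 g hg1 hgP)⟩))
      · exact Or.inr (Or.inr ⟨hg2, hgP⟩)
    obtain ⟨g, hg1, hg2⟩ := exists_ins (h.tr s hs) S
    rcases h.toD1.cases hs hA with h2 | h3
    · obtain ⟨c, hc, hcs⟩ := h.C2_cov h2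
      refine ⟨c, ?_, hcs⟩
      simp only [mem_union, mem_filter, mem_sdiff, mem_inter]
      by_cases hcP : c ∈ EE P
      · exact Or.inr (Or.inl (Or.inr ⟨⟨hc, hcP⟩, not_ins.mp (h0 c hcs hcP)⟩))
      · have hgP : g ∉ EE P := fun hh => h0 g hg1 hh hg2
        have e := h.toD1.lab h2 hcs hcP hg1 hgP
        subst e
        exact Or.inl (Or.inr ⟨⟨hc, hcP⟩, hg2⟩)
    · exact absurd hg2 (h0 g hg1 ((mem_TT3.mp h3).2.2 hg1))
  · have k1 : (EE P).card ≤ 3 * P.card := card_EE_le (fun s hs => h.tr s (h.PH hs))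
    have k2 : (EE A ∩ EE P).card ≤ A.card := by
      have e : EE A ∩ EE P = A.biUnion fun t => prs t ∩ EE P := by
        ext c
        simp only [mem_inter, mem_EE, mem_biUnion]
        constructor
        · rintro ⟨⟨t, ht, hc⟩, hcP⟩
          exact ⟨t, ht, hc, hcP⟩
        · rintro ⟨t, ht, hc, hcP⟩
          exact ⟨⟨t, ht, hc⟩, hcP⟩
      rw [e]
      refine le_trans card_biUnion_le ?_
      rw [sum_congr rfl (fun t ht => h.A1 t ht)]
      simp
    have k3 : (EE A \ EE P).card ≤ 2 * A.card := by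
      have e : EE A \ EE P = A.biUnion fun t => prs t \ EE P := by
        ext c
        simp only [mem_sdiff, mem_EE, mem_biUnion]
        constructor
        · rintro ⟨⟨t, ht, hc⟩, hcP⟩
          exact ⟨t, ht, hc, hcP⟩
        · rintro ⟨t, ht, hc, hcP⟩
          exact ⟨⟨t, ht, hc⟩, hcP⟩
      rw [e]
      refine le_trans card_biUnion_le ?_
      have : ∀ t ∈ A, (prs t \ EE P).card = 2 := by
        intro t ht
        have h1 := h.A1 t ht
        have h2 := card_prs (h.tr t (h.AH t ht))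
        have h3 := card_sdiff_add_card_inter (prs t) (EE P)
        omega
      rw [sum_congr rfl this]
      simp [mul_comm]
    have k4 : (C2 H A W R B q f \ EE P).card + (C2 H A W R B q f ∩ EE P).card =
      (C2 H A W R B q f).card := card_sdiff_add_card_inter _ _
    have k5 := h.C2_card
    have u1 := card_union_le ((EE P).filter (ins S) ∪ (C2 H A W R B q f \ EE P).filter (ins S))
      (((EE A ∩ EE P).filter (cro S) ∪ (C2 H A W R B q f ∩ EE P).filter (cro S)) ∪
        (EE A \ EE P))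
    have u2 := card_union_le ((EE P).filter (ins S)) ((C2 H A W R B q f \ EE P).filter (ins S))
    have u3 := card_union_le
      ((EE A ∩ EE P).filter (cro S) ∪ (C2 H A W R B q f ∩ EE P).filter (cro S)) (EE A \ EE P)
    have u4 := card_union_le ((EE A ∩ EE P).filter (cro S))
      ((C2 H A W R B q f ∩ EE P).filter (cro S))
    omega

end

/-- **Theorem**: `5 τ ≤ 14 ν` for every finite 3-uniform hypergraph. -/
theorem fourteen_fifths (H : Finset (Finset V)) (hH : ∀ s ∈ H, s.card = 3) :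
    ∃ C M : Finset (Finset V), (∀ c ∈ C, c.card = 2) ∧ (∀ s ∈ H, ∃ c ∈ C, c ⊆ s) ∧ M ⊆ H ∧
      (M : Set (Finset V)).Pairwise (fun e f => (e ∩ f).card < 2) ∧
      5 * C.card ≤ 14 * M.card := by
  obtain ⟨P, A, h1⟩ := D1.exists hH
  obtain ⟨W, R, h2⟩ := h1.exists2
  obtain ⟨B, q, f, h3⟩ := h2.exists3
  obtain ⟨Ca, ha, hac⟩ := h1.cover1
  obtain ⟨Cb, hb, hbc⟩ := h3.cover2
  obtain ⟨Cc, hc, hcc⟩ := h3.cover3
  obtain ⟨Cd, hd, hdc⟩ := h3.cover_bip
  have hK : (KK H A W R B q f).card ≤ B.card := card_le_card KK_sub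
  have fin : ∀ C, Cov H C → 5 * C.card ≤ 14 * P.card →
      ∃ C M : Finset (Finset V), (∀ c ∈ C, c.card = 2) ∧ (∀ s ∈ H, ∃ c ∈ C, c ⊆ s) ∧ M ⊆ H ∧
      (M : Set (Finset V)).Pairwise (fun e f => (e ∩ f).card < 2) ∧
      5 * C.card ≤ 14 * M.card := by
    intro C hC hle
    refine ⟨C, P, hC.1, fun s hs => ?_, h1.PH, ?_, hle⟩
    · obtain ⟨c, hc1, hc2⟩ := hC.2 s hs
      exact ⟨c, hc1, (mem_prs.mp hc2).1⟩
    · intro e he f hf hne
      by_contra hcon
      have hcon : 2 ≤ (e ∩ f).card := by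
        have := not_lt.mp hcon
        exact this
      obtain ⟨g, hg, hg2⟩ := exists_subset_card_eq hcon
      have hge : g ∈ prs e := mem_prs.mpr ⟨hg.trans inter_subset_left, hg2⟩
      have hgf : g ∈ prs f := mem_prs.mpr ⟨hg.trans inter_subset_right, hg2⟩
      exact hne (h1.pkP.uniq (by exact_mod_cast he) (by exact_mod_cast hf) hge hgf)
  by_cases e1 : 5 * Ca.card ≤ 14 * P.card
  · exact fin Ca ha e1
  by_cases e2 : 5 * Cb.card ≤ 14 * P.card
  · exact fin Cb hb e2
  by_cases e3 : 5 * Cc.card ≤ 14 * P.card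
  · exact fin Cc hc e3
  exact fin Cd hd (by omega)

end Pool.Agent.TZ
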