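import Pool.Agent.Lib_helper37.TZ.Basic

/-!
# The covers (towards tau <= 14/5 nu)
-/

set_option linter.unusedSectionVars false

namespace Pool.Agent.TZ

open Finset

variable {V : Type*} [DecidableEq V]

/-- `C` is a set of pairs that meets every triple of `H` -/
def Cov (H C : Finset (Finset V)) : Prop :=
  (∀ c ∈ C, c.card = 2) ∧ ∀ s ∈ H, ∃ c ∈ C, c ∈ prs s

theorem card_of_mem_EE {g : Finset V} {X : Finset (Finset V)} (h : g ∈ EE X) : g.card = 2 := by
  obtain ⟨s, _, hg⟩ := mem_EE.mp h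
  exact (mem_prs.mp hg).2

/-- first level: a maximum packing `P` of `H`, a maximal packing `A` of triples of type one -/
structure D1 (H P A : Finset (Finset V)) : Prop where
  tr : ∀ s ∈ H, s.card = 3
  PH : P ⊆ H
  pkP : Pk P
  maxP : ∀ X ⊆ H, Pk X → X.card ≤ P.card
  AH : ∀ t ∈ A, t ∈ H
  A1 : ∀ t ∈ A, (prs t ∩ EE P).card = 1
  pkA : Pk A
  maxA : ∀ s ∈ H, (prs s ∩ EE P).card = 1 → ¬ Disjoint (prs s) (EE A)

theorem D1.exists {H : Finset (Finset V)} (hH : ∀ s ∈ H, s.card = 3) : ∃ P A, D1 H P A := by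
  obtain ⟨P, hPH, hP, hm⟩ := exists_max H
  obtain ⟨A, hAT, hA, hm2⟩ := exists_max (H.filter fun s => (prs s ∩ EE P).card = 1)
  refine ⟨P, A, hH, hPH, hP, hm, fun t ht => (mem_filter.mp (hAT ht)).1,
    fun t ht => (mem_filter.mp (hAT ht)).2, hA, fun s hs h1 => ?_⟩
  exact hit_max (F := H.filter fun s => (prs s ∩ EE P).card = 1)
    (fun s hs => hH s (mem_filter.mp hs).1) hAT hA hm2 (mem_filter.mpr ⟨hs, h1⟩)

section
variable {H P A : Finset (Finset V)}

theorem D1.hitP (h : D1 H P A) {s : Finset V} (hs : s ∈ H) : ¬ Disjoint (prs s) (EE P) :=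
  hit_max h.tr h.PH h.pkP h.maxP hs

theorem D1.pos (h : D1 H P A) {s : Finset V} (hs : s ∈ H) : 1 ≤ (prs s ∩ EE P).card := by
  have := h.hitP hs
  rw [disjoint_iff_inter_eq_empty] at this
  rw [Nat.one_le_iff_ne_zero, Ne, card_eq_zero]
  exact this

theorem D1.cardP (h : D1 H P A) {s : Finset V} (hs : s ∈ P) : (prs s ∩ EE P).card = 3 := by
  rw [inter_eq_left.mpr (prs_sub_EE hs), card_prs (h.tr s (h.PH hs))]

theorem D1.AP (h : D1 H P A) : Disjoint A P := by
  rw [disjoint_left]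
  intro t h1 h2
  have := h.cardP h2
  have := h.A1 t h1
  omega

/-- the parent of `t` in `P` -/
theorem D1.parent (h : D1 H P A) : ∃ q : Finset V → Finset V,
    (∀ t ∈ A, q t ∈ P) ∧ (∀ t ∈ A, ¬ Disjoint (prs t) (prs (q t))) ∧
    (∀ t ∈ A, ∀ x ∈ P, x ≠ q t → Disjoint (prs t) (prs x)) ∧ Set.InjOn q A := by
  have h0 : ∀ t : Finset V, ∃ x : Finset V, t ∈ A → x ∈ P ∧ ¬ Disjoint (prs t) (prs x) := by
    intro t
    by_cases ht : t ∈ A
    · obtain ⟨x, hx, hx2⟩ := hit_EE.mp (h.hitP (h.AH t ht))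
      exact ⟨x, fun _ => ⟨hx, hx2⟩⟩
    · exact ⟨∅, fun h => absurd h ht⟩
  choose q hq using h0
  have hu : ∀ t ∈ A, ∀ x ∈ P, x ≠ q t → Disjoint (prs t) (prs x) := by
    intro t ht x hx hne
    by_contra hc
    obtain ⟨g, hg1, hg2⟩ := hit_iff.mp hc
    obtain ⟨g', hg1', hg2'⟩ := hit_iff.mp (hq t ht).2
    obtain ⟨c, hc1⟩ := card_eq_one.mp (h.A1 t ht)
    have e1 : g ∈ prs t ∩ EE P := mem_inter.mpr ⟨hg1, prs_sub_EE hx hg2⟩
    have e2 : g' ∈ prs t ∩ EE P := mem_inter.mpr ⟨hg1', prs_sub_EE (hq t ht).1 hg2'⟩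
    rw [hc1, mem_singleton] at e1 e2
    subst e1
    rw [e2] at hg2'
    exact hne (h.pkP.uniq hx (hq t ht).1 hg2 hg2')
  refine ⟨q, fun t ht => (hq t ht).1, fun t ht => (hq t ht).2, hu, ?_⟩
  -- injectivity
  intro t ht t' ht' he
  by_contra hne
  have ht : t ∈ A := ht
  have ht' : t' ∈ A := ht'
  have hqt := (hq t ht).1
  have pk : Pk (insert t' (insert t (P.erase (q t)))) := by
    refine Pk.insert (Pk.insert (h.pkP.mono (erase_subset _ _)) ?_) ?_
    · rw [disj_EE]
      intro x hx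
      rw [mem_erase] at hx
      exact hu t ht x hx.2 hx.1
    · rw [disj_EE]
      intro x hx
      rcases mem_insert.mp hx with rfl | hx
      · exact h.pkA t' ht' x ht (Ne.symm hne)
      · rw [mem_erase] at hx
        exact hu t' ht' x hx.2 (by rw [← he]; exact hx.1)
  have hsub : insert t' (insert t (P.erase (q t))) ⊆ H := by
    refine insert_subset (h.AH t' ht') (insert_subset (h.AH t ht) ?_)
    exact (erase_subset _ _).trans h.PH
  have hm := h.maxP _ hsub pk
  have hnP : ∀ u ∈ A, u ∉ P := fun u hu hp => disjoint_left.mp h.AP hu hp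
  rw [card_insert_of_notMem, card_insert_of_notMem, card_erase_of_mem hqt] at hm
  · have : 0 < P.card := card_pos.mpr ⟨_, hqt⟩
    omega
  · intro hh
    exact hnP t ht (mem_of_mem_erase hh)
  · intro hh
    rcases mem_insert.mp hh with hh | hh
    · exact hne hh.symm
    · exact hnP t' ht' (mem_of_mem_erase hh)

/-- cover (1) : `τ ≤ 3 ν - a` -/
theorem D1.cover1 (h : D1 H P A) : ∃ C, Cov H C ∧ C.card + A.card ≤ 3 * P.card := by
  obtain ⟨q, hq, hh, hd, hi⟩ := h.parent
  have htq : ∀ t ∈ A, t ≠ q t := by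
    intro t ht he
    exact disjoint_left.mp h.AP ht (he ▸ hq t ht)
  have hf : ∀ t : Finset V, ∃ f : Finset V, t ∈ A → f ∈ prs t ∧ f ∈ prs (q t) := by
    intro t
    by_cases ht : t ∈ A
    · obtain ⟨g, hg⟩ := hit_iff.mp (hh t ht)
      exact ⟨g, fun _ => hg⟩
    · exact ⟨∅, fun h => absurd h ht⟩
  choose f hf using hf
  have trA : ∀ t ∈ A, t.card = 3 := fun t ht => h.tr t (h.AH t ht)
  have trq : ∀ t ∈ A, (q t).card = 3 := fun t ht => h.tr _ (h.PH (hq t ht))
  have hqP : A.image q ⊆ P := by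
    intro x hx
    obtain ⟨t, ht, rfl⟩ := mem_image.mp hx
    exact hq t ht
  refine ⟨EE (P \ A.image q) ∪ (A.image f ∪ A.image fun t => symmDiff t (q t)), ⟨?_, ?_⟩, ?_⟩
  · intro c hc
    rcases mem_union.mp hc with hc | hc
    · exact card_of_mem_EE hc
    rcases mem_union.mp hc with hc | hc
    · obtain ⟨t, ht, rfl⟩ := mem_image.mp hc
      exact (mem_prs.mp (hf t ht).1).2
    · obtain ⟨t, ht, rfl⟩ := mem_image.mp hc
      exact (opp_card (trA t ht) (trq t ht) (htq t ht) (hf t ht).1 (hf t ht).2).1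
  · intro s hs
    by_cases hav : Disjoint (prs s) (EE (P \ A.image q))
    · obtain ⟨pk', card'⟩ := swap q h.pkP h.pkA hq hd hi h.AP
        (B := A.filter (fun t => ¬ Disjoint (prs s) (prs (q t)))) (filter_subset _ _)
      have hit := hit_max h.tr (A := (P \ (A.filter
        (fun t => ¬ Disjoint (prs s) (prs (q t)))).image q) ∪ (A.filter
        (fun t => ¬ Disjoint (prs s) (prs (q t)))))
        (by
          intro x hx
          rcases mem_union.mp hx with hx | hx
          · exact h.PH (mem_sdiff.mp hx).1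
          · exact h.AH x (mem_filter.mp hx).1) pk'
        (by rw [card']; exact h.maxP) hs
      obtain ⟨t, ht, h1, h2⟩ := two_hits q hit hav
      by_cases hfs : f t ∈ prs s
      · refine ⟨f t, ?_, hfs⟩
        exact mem_union_right _ (mem_union_left _ (mem_image_of_mem f ht))
      · obtain ⟨g1, g2, _, _, _, _, he⟩ := geo (h.tr s hs) (trA t ht) (trq t ht) (htq t ht)
          (hf t ht).1 (hf t ht).2 h1 h2 hfs
        refine ⟨symmDiff t (q t), ?_, ?_⟩
        · exact mem_union_right _ (mem_union_right _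
            (mem_image_of_mem (fun t => symmDiff t (q t)) ht))
        · rw [he]; simp
    · rw [not_disjoint_iff] at hav
      obtain ⟨g, hg1, hg2⟩ := hav
      exact ⟨g, mem_union_left _ hg2, hg1⟩
  · have c1 : (EE (P \ A.image q)).card ≤ 3 * (P \ A.image q).card :=
      card_EE_le (fun s hs => h.tr s (h.PH (mem_sdiff.mp hs).1))
    have c2 : (P \ A.image q).card + A.card = P.card := by
      rw [card_sdiff_of_subset hqP, card_image_of_injOn hi]
      have := card_le_card hqP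
      rw [card_image_of_injOn hi] at this
      omega
    have c3 : (A.image f).card ≤ A.card := card_image_le
    have c4 : (A.image fun t => symmDiff t (q t)).card ≤ A.card := card_image_le
    have c5 := card_union_le (EE (P \ A.image q)) (A.image f ∪ A.image fun t => symmDiff t (q t))
    have c6 := card_union_le (A.image f) (A.image fun t => symmDiff t (q t))
    omega

/-- triples that avoid `A` -/
def HH1 (H A : Finset (Finset V)) : Finset (Finset V) :=
  H.filter fun s => Disjoint (prs s) (EE A)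

/-- triples of type two -/
def TT2 (H P A : Finset (Finset V)) : Finset (Finset V) :=
  (HH1 H A).filter fun s => (prs s ∩ EE P).card = 2

/-- triples of type three -/
def TT3 (H P A : Finset (Finset V)) : Finset (Finset V) :=
  (HH1 H A).filter fun s => prs s ⊆ EE P

theorem mem_TT2 {s : Finset V} :
    s ∈ TT2 H P A ↔ s ∈ H ∧ Disjoint (prs s) (EE A) ∧ (prs s ∩ EE P).card = 2 := by
  simp [TT2, HH1, mem_filter, and_assoc]

theorem mem_TT3 {s : Finset V} :
    s ∈ TT3 H P A ↔ s ∈ H ∧ Disjoint (prs s) (EE A) ∧ prs s ⊆ EE P := by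
  simp [TT3, HH1, mem_filter, and_assoc]

theorem D1.cases (h : D1 H P A) {s : Finset V} (hs : s ∈ H) (hd : Disjoint (prs s) (EE A)) :
    s ∈ TT2 H P A ∨ s ∈ TT3 H P A := by
  have h1 := h.pos hs
  have h2 : (prs s ∩ EE P).card ≤ 3 := by
    rw [← card_prs (h.tr s hs)]
    exact card_le_card inter_subset_left
  have h3 : (prs s ∩ EE P).card ≠ 1 := fun he => h.maxA s hs he hd
  rcases (show (prs s ∩ EE P).card = 2 ∨ (prs s ∩ EE P).card = 3 by omega) with h4 | h4
  · exact Or.inl (mem_TT2.mpr ⟨hs, hd, h4⟩)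
  · refine Or.inr (mem_TT3.mpr ⟨hs, hd, ?_⟩)
    rw [← inter_eq_left]
    exact eq_of_subset_of_card_le inter_subset_left (by rw [card_prs (h.tr s hs), h4])

theorem TT_disj (h : D1 H P A) {s : Finset V} (h2 : s ∈ TT2 H P A) (h3 : s ∈ TT3 H P A) :
    False := by
  rw [mem_TT2] at h2
  rw [mem_TT3] at h3
  have := h2.2.2
  rw [inter_eq_left.mpr h3.2.2, card_prs (h.tr s h2.1)] at this
  omega

/-- second level -/
structure D2 (H P A W R : Finset (Finset V)) : Prop extends D1 H P A where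
  W2 : W ⊆ TT2 H P A
  R3 : R ⊆ TT3 H P A
  pkQ : Pk (W ∪ R)
  O1 : ∀ X ⊆ TT2 H P A, Pk X → X.card ≤ W.card
  O2 : ∀ X ⊆ TT2 H P A, ∀ Y ⊆ TT3 H P A, Pk (X ∪ Y) → X.card = W.card → Y.card ≤ R.card

theorem D1.exists2 (h : D1 H P A) : ∃ W R, D2 H P A W R := by
  classical
  obtain ⟨W0, hW0, hp0, hm0⟩ := exists_max (TT2 H P A)
  obtain ⟨⟨W, R⟩, hWR, hmax⟩ := exists_max_image
    (((TT2 H P A).powerset ×ˢ (TT3 H P A).powerset).filter
      fun x => Pk (x.1 ∪ x.2) ∧ x.1.card = W0.card) (fun x => x.2.card)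
    ⟨(W0, ∅), by
      rw [mem_filter, mem_product, mem_powerset, mem_powerset]
      exact ⟨⟨hW0, empty_subset _⟩, by simpa using hp0, rfl⟩⟩
  rw [mem_filter, mem_product, mem_powerset, mem_powerset] at hWR
  obtain ⟨⟨h1, h2⟩, h3, h4⟩ := hWR
  refine ⟨W, R, h, h1, h2, h3, ?_, ?_⟩
  · intro X hX hP
    rw [h4]
    exact hm0 X hX hP
  · intro X hX Y hY hP hc
    refine hmax (X, Y) ?_
    rw [mem_filter, mem_product, mem_powerset, mem_powerset]
    exact ⟨⟨hX, hY⟩, hP, hc.trans h4⟩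

end

section
variable {H P A W R : Finset (Finset V)}

theorem D2.tr2 (h : D2 H P A W R) : ∀ s ∈ TT2 H P A, s.card = 3 :=
  fun s hs => h.tr s (mem_TT2.mp hs).1

theorem D2.tr3 (h : D2 H P A W R) : ∀ s ∈ TT3 H P A, s.card = 3 :=
  fun s hs => h.tr s (mem_TT3.mp hs).1

theorem D2.trQ (h : D2 H P A W R) : ∀ s ∈ W ∪ R, s.card = 3 := by
  intro s hs
  rcases mem_union.mp hs with hs | hs
  · exact h.tr2 s (h.W2 hs)
  · exact h.tr3 s (h.R3 hs)

theorem D2.QH (h : D2 H P A W R) : W ∪ R ⊆ H := by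
  intro s hs
  rcases mem_union.mp hs with hs | hs
  · exact (mem_TT2.mp (h.W2 hs)).1
  · exact (mem_TT3.mp (h.R3 hs)).1

theorem D2.QA (h : D2 H P A W R) {s : Finset V} (hs : s ∈ W ∪ R) : Disjoint (prs s) (EE A) := by
  rcases mem_union.mp hs with hs | hs
  · exact (mem_TT2.mp (h.W2 hs)).2.1
  · exact (mem_TT3.mp (h.R3 hs)).2.1

theorem D2.WR (h : D2 H P A W R) : Disjoint W R := by
  rw [disjoint_left]
  intro s h1 h2
  exact TT_disj h.toD1 (h.W2 h1) (h.R3 h2)

/-- the packing `A ∪ Q` -/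
theorem D2.total (h : D2 H P A W R) : A.card + (W.card + R.card) ≤ P.card := by
  have hd : Disjoint A (W ∪ R) := by
    rw [disjoint_left]
    intro s h1 h2
    exact hit_self (h.trQ s h2) (disj_EE.mp (h.QA h2) s h1)
  have pk : Pk (A ∪ (W ∪ R)) := by
    refine Pk.union h.pkA h.pkQ ?_
    intro x hx y hy
    exact (disj_EE.mp (h.QA hy) x hx).symm
  have := h.maxP (A ∪ (W ∪ R)) (union_subset (fun t ht => h.AH t ht) h.QH) pk
  rwa [card_union_of_disjoint hd, card_union_of_disjoint h.WR] at this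

/-- every triple of type 2 hits every maximum packing of the triples of type 2 -/
theorem D2.hit2 (h : D2 H P A W R) {X : Finset (Finset V)} (hX : X ⊆ TT2 H P A) (hp : Pk X)
    (hc : X.card = W.card) {s : Finset V} (hs : s ∈ TT2 H P A) :
    ¬ Disjoint (prs s) (EE X) :=
  hit_max h.tr2 hX hp (by rw [hc]; exact h.O1) hs

/-- every triple of type 3 hits every optimal pair -/
theorem D2.hit3 (h : D2 H P A W R) {X : Finset (Finset V)} (hX : X ⊆ TT2 H P A)
    (hp : Pk (X ∪ R)) (hc : X.card = W.card) {s : Finset V} (hs : s ∈ TT3 H P A) :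
    ¬ Disjoint (prs s) (EE (X ∪ R)) := by
  intro hd
  have hn : s ∉ R := by
    intro h1
    exact hit_self (h.tr3 s hs) (disj_EE.mp hd s (mem_union_right _ h1))
  have := h.O2 X hX (insert s R) (insert_subset hs h.R3)
    (by rw [union_insert]; exact hp.insert hd) hc
  rw [card_insert_of_notMem hn] at this
  omega

end

end Pool.Agent.TZ
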