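import Pool.Agent.Lib_helper37.TZ.Covers

/-!
# The third level (towards tau <= 14/5 nu)
-/

set_option linter.unusedSectionVars false

namespace Pool.Agent.TZ

open Finset

variable {V : Type*} [DecidableEq V]

/-- inserting a triple that is not hit -/
theorem pk_insert {X : Finset (Finset V)} {s : Finset V} (hX : Pk X) (hs : s.card = 3)
    (h : Disjoint (prs s) (EE X)) : Pk (insert s X) ∧ (insert s X).card = X.card + 1 := by
  refine ⟨hX.insert h, card_insert_of_notMem ?_⟩
  intro hx
  exact hit_self hs (disj_EE.mp h s hx)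

theorem disj_insert {a s : Finset V} {X : Finset (Finset V)} (h1 : Disjoint (prs s) (prs a))
    (h2 : Disjoint (prs s) (EE X)) : Disjoint (prs s) (EE (insert a X)) := by
  rw [disj_EE] at h2 ⊢
  intro x hx
  rcases mem_insert.mp hx with rfl | hx
  · exact h1
  · exact h2 x hx

theorem disj3 {g1 g2 o : Finset V} {r : Finset V} {X : Finset (Finset V)}
    (he : prs r = {g1, g2, o}) (h1 : g1 ∉ X) (h2 : g2 ∉ X) (h3 : o ∉ X) :
    Disjoint (prs r) X := by
  rw [he, disjoint_left]
  intro c hc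
  simp only [mem_insert, mem_singleton] at hc
  rcases hc with rfl | rfl | rfl
  · exact h1
  · exact h2
  · exact h3

section
variable {H P A : Finset (Finset V)}

/-- the label of a triple of type 2 -/
theorem D1.lab (h : D1 H P A) {s g g' : Finset V} (hs : s ∈ TT2 H P A) (h1 : g ∈ prs s)
    (h1' : g ∉ EE P) (h2 : g' ∈ prs s) (h2' : g' ∉ EE P) : g = g' := by
  have hc : (prs s \ EE P).card = 1 := by
    have h3 := (mem_TT2.mp hs).2.2
    have h4 := card_prs (h.tr s (mem_TT2.mp hs).1)
    have h5 := card_sdiff_add_card_inter (prs s) (EE P)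
    omega
  obtain ⟨c, hc⟩ := card_eq_one.mp hc
  have e1 : g ∈ prs s \ EE P := mem_sdiff.mpr ⟨h1, h1'⟩
  have e2 : g' ∈ prs s \ EE P := mem_sdiff.mpr ⟨h2, h2'⟩
  rw [hc, mem_singleton] at e1 e2
  rw [e1, e2]

/-- triples of type 2 whose ports are not in `E(Q)` -/
def YY (H P A Q : Finset (Finset V)) : Finset (Finset V) :=
  (TT2 H P A).filter fun s => Disjoint (prs s ∩ EE P) (EE Q)

theorem mem_YY {Q : Finset (Finset V)} {s : Finset V} :
    s ∈ YY H P A Q ↔ s ∈ TT2 H P A ∧ Disjoint (prs s ∩ EE P) (EE Q) := by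
  simp [YY, mem_filter]

end

/-- third level -/
structure D3 (H P A W R B : Finset (Finset V)) (q f : Finset V → Finset V) : Prop
    extends D2 H P A W R where
  BY : B ⊆ YY H P A (W ∪ R)
  pkB : Pk B
  maxB : ∀ s ∈ YY H P A (W ∪ R), ¬ Disjoint (prs s) (EE B)
  qW : ∀ t ∈ B, q t ∈ W
  ft : ∀ t ∈ B, f t ∈ prs t
  fq : ∀ t ∈ B, f t ∈ prs (q t)

theorem D2.exists3 {H P A W R : Finset (Finset V)} (h : D2 H P A W R) :
    ∃ B q f, D3 H P A W R B q f := by
  obtain ⟨B, hB, hp, hm⟩ := exists_max (YY H P A (W ∪ R))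
  have h0 : ∀ t : Finset V, ∃ x g : Finset V, t ∈ B → x ∈ W ∧ g ∈ prs t ∧ g ∈ prs x := by
    intro t
    by_cases ht : t ∈ B
    · have h2 := (mem_YY.mp (hB ht)).1
      have := h.hit2 h.W2 (h.pkQ.mono subset_union_left) rfl h2
      obtain ⟨x, hx, hx2⟩ := hit_EE.mp this
      obtain ⟨g, hg⟩ := hit_iff.mp hx2
      exact ⟨x, g, fun _ => ⟨hx, hg⟩⟩
    · exact ⟨∅, ∅, fun h => absurd h ht⟩
  choose q f hqf using h0
  refine ⟨B, q, f, h, hB, hp, ?_, fun t ht => (hqf t ht).1, fun t ht => (hqf t ht).2.1,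
    fun t ht => (hqf t ht).2.2⟩
  intro s hs
  exact hit_max (fun s hs => h.tr2 s (mem_YY.mp hs).1) hB hp hm hs

section
variable {H P A W R B : Finset (Finset V)} {q f : Finset V → Finset V}

theorem D3.B2 (h : D3 H P A W R B q f) {t : Finset V} (ht : t ∈ B) : t ∈ TT2 H P A :=
  (mem_YY.mp (h.BY ht)).1

theorem D3.trB (h : D3 H P A W R B q f) {t : Finset V} (ht : t ∈ B) : t.card = 3 :=
  h.tr2 t (h.B2 ht)

theorem D3.trq (h : D3 H P A W R B q f) {t : Finset V} (ht : t ∈ B) : (q t).card = 3 :=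
  h.tr2 _ (h.W2 (h.qW t ht))

/-- a pair of a member of `Y` that belongs to `E(Q)` is the label -/
theorem YY_lab (h : D2 H P A W R) {s g : Finset V} (hs : s ∈ YY H P A (W ∪ R))
    (h1 : g ∈ prs s) (h2 : g ∈ EE (W ∪ R)) : g ∉ EE P := by
  intro h3
  exact disjoint_left.mp (mem_YY.mp hs).2 (mem_inter.mpr ⟨h1, h3⟩) h2

theorem D3.fE (h : D3 H P A W R B q f) {t : Finset V} (ht : t ∈ B) : f t ∈ EE (W ∪ R) :=
  prs_sub_EE (mem_union_left _ (h.qW t ht)) (h.fq t ht)

theorem D3.fP (h : D3 H P A W R B q f) {t : Finset V} (ht : t ∈ B) : f t ∉ EE P :=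
  YY_lab h.toD2 (h.BY ht) (h.ft t ht) (h.fE ht)

/-- a pair of `t` in `E(Q)` is `f t` -/
theorem D3.uf (h : D3 H P A W R B q f) {t g : Finset V} (ht : t ∈ B) (h1 : g ∈ prs t)
    (h2 : g ∈ EE (W ∪ R)) : g = f t :=
  h.toD1.lab (h.B2 ht) h1 (YY_lab h.toD2 (h.BY ht) h1 h2) (h.ft t ht) (h.fP ht)

/-- the ports are in `E(P)` -/
theorem D3.port (h : D3 H P A W R B q f) {t g : Finset V} (ht : t ∈ B) (h1 : g ∈ prs t)
    (h2 : g ≠ f t) : g ∈ EE P := by
  by_contra h3
  exact h2 (h.toD1.lab (h.B2 ht) h1 h3 (h.ft t ht) (h.fP ht))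

theorem D3.portq (h : D3 H P A W R B q f) {t g : Finset V} (ht : t ∈ B) (h1 : g ∈ prs (q t))
    (h2 : g ≠ f t) : g ∈ EE P := by
  by_contra h3
  exact h2 (h.toD1.lab (h.W2 (h.qW t ht)) h1 h3 (h.fq t ht) (h.fP ht))

theorem D3.dq (h : D3 H P A W R B q f) {t : Finset V} (ht : t ∈ B) :
    ∀ x ∈ W ∪ R, x ≠ q t → Disjoint (prs t) (prs x) := by
  intro x hx hne
  by_contra hc
  obtain ⟨g, hg1, hg2⟩ := hit_iff.mp hc
  have e := h.uf ht hg1 (prs_sub_EE hx hg2)
  subst e
  exact hne (h.pkQ.uniq hx (mem_union_left _ (h.qW t ht)) hg2 (h.fq t ht))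

theorem D3.inj (h : D3 H P A W R B q f) : Set.InjOn q B := by
  intro t ht t' ht' he
  have ht : t ∈ B := ht
  have ht' : t' ∈ B := ht'
  have h1 : f t' ∈ prs (q t) := by
    have he' : q t = q t' := he
    rw [he']
    exact h.fq t' ht'
  have e := h.toD1.lab (h.W2 (h.qW t ht)) (h.fq t ht) (h.fP ht) h1 (h.fP ht')
  exact h.pkB.uniq ht ht' (h.ft t ht) (by rw [e]; exact h.ft t' ht')

theorem D3.BQ (h : D3 H P A W R B q f) {t : Finset V} (ht : t ∈ B) : t ∉ W ∪ R := by
  intro hq
  have h2 := (mem_TT2.mp (h.B2 ht)).2.2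
  have h3 : (prs t ∩ EE P).Nonempty := by
    rw [← card_pos]; omega
  obtain ⟨g, hg⟩ := h3
  rw [mem_inter] at hg
  exact YY_lab h.toD2 (h.BY ht) hg.1 (prs_sub_EE hq hg.1) hg.2

theorem D3.tq (h : D3 H P A W R B q f) {t : Finset V} (ht : t ∈ B) : t ≠ q t := by
  intro he
  exact h.BQ ht (mem_union_left _ (by rw [he]; exact h.qW t ht))

theorem D3.BW (h : D3 H P A W R B q f) : Disjoint B W := by
  rw [disjoint_left]
  intro t h1 h2
  exact h.BQ h1 (mem_union_left _ h2)

theorem D3.imW (h : D3 H P A W R B q f) : B.image q ⊆ W := by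
  intro x hx
  obtain ⟨t, ht, rfl⟩ := mem_image.mp hx
  exact h.qW t ht

theorem D3.imcard (h : D3 H P A W R B q f) : (B.image q).card = B.card :=
  card_image_of_injOn h.inj

theorem D3.hits2 (h : D3 H P A W R B q f) {s : Finset V} (hs : s ∈ TT2 H P A)
    (hav : Disjoint (prs s) (EE (W \ B.image q))) :
    ∃ t ∈ B, ¬ Disjoint (prs s) (prs t) ∧ ¬ Disjoint (prs s) (prs (q t)) := by
  obtain ⟨pk', card'⟩ := swap q (h.pkQ.mono subset_union_left) h.pkB h.qW
    (fun t ht x hx => h.dq ht x (mem_union_left _ hx)) h.inj h.BW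
    (B := B.filter (fun t => ¬ Disjoint (prs s) (prs (q t)))) (filter_subset _ _)
  refine two_hits q (h.hit2 ?_ pk' card' hs) hav
  intro x hx
  rcases mem_union.mp hx with hx | hx
  · exact h.W2 (mem_sdiff.mp hx).1
  · exact h.B2 (mem_filter.mp hx).1

theorem D3.hits3 (h : D3 H P A W R B q f) {s : Finset V} (hs : s ∈ TT3 H P A)
    (hav : Disjoint (prs s) (EE ((W ∪ R) \ B.image q))) :
    ∃ t ∈ B, ¬ Disjoint (prs s) (prs t) ∧ ¬ Disjoint (prs s) (prs (q t)) := by
  obtain ⟨pk', card'⟩ := swap q (h.pkQ.mono subset_union_left) h.pkB h.qW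
    (fun t ht x hx => h.dq ht x (mem_union_left _ hx)) h.inj h.BW
    (B := B.filter (fun t => ¬ Disjoint (prs s) (prs (q t)))) (filter_subset _ _)
  have hav1 : Disjoint (prs s) (EE (W \ B.image q)) :=
    disjoint_of_subset_right (EE_mono (sdiff_subset_sdiff subset_union_left subset_rfl)) hav
  have hav2 : Disjoint (prs s) (EE R) := by
    refine disjoint_of_subset_right (EE_mono ?_) hav
    intro x hx
    rw [mem_sdiff]
    refine ⟨mem_union_right _ hx, fun hi => ?_⟩
    exact disjoint_left.mp h.WR (h.imW hi) hx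
  refine two_hits q ?_ hav1
  have hh := h.hit3 (X := (W \ (B.filter (fun t => ¬ Disjoint (prs s) (prs (q t)))).image q) ∪
    (B.filter (fun t => ¬ Disjoint (prs s) (prs (q t))))) ?_ ?_ card' hs
  · rw [EE_union, disjoint_union_right] at hh
    intro hd
    exact hh ⟨hd, hav2⟩
  · intro x hx
    rcases mem_union.mp hx with hx | hx
    · exact h.W2 (mem_sdiff.mp hx).1
    · exact h.B2 (mem_filter.mp hx).1
  · refine Pk.union pk' (h.pkQ.mono subset_union_right) ?_
    intro x hx y hy
    rcases mem_union.mp hx with hx | hx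
    · have hx := (mem_sdiff.mp hx).1
      refine h.pkQ x (mem_union_left _ hx) y (mem_union_right _ hy) ?_
      rintro rfl
      exact disjoint_left.mp h.WR hx hy
    · have hx := (mem_filter.mp hx).1
      refine h.dq hx y (mem_union_right _ hy) ?_
      rintro rfl
      exact disjoint_left.mp h.WR (h.qW x hx) hy

/-- `r` is a face at `t` -/
def Face (H A W R B : Finset (Finset V)) (q f : Finset V → Finset V) (t r : Finset V) : Prop :=
  r ∈ H ∧ Disjoint (prs r) (EE A) ∧ Disjoint (prs r) (EE ((W ∪ R) \ B.image q)) ∧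
    (∀ t' ∈ B, f t' ∉ prs r) ∧ ¬ Disjoint (prs r) (prs t) ∧ ¬ Disjoint (prs r) (prs (q t))

open Classical in
/-- members of `B` with a face -/
noncomputable def KK (H A W R B : Finset (Finset V)) (q f : Finset V → Finset V) :
    Finset (Finset V) :=
  B.filter fun t => ∃ r, Face H A W R B q f t r

theorem mem_KK {t : Finset V} : t ∈ KK H A W R B q f ↔ t ∈ B ∧ ∃ r, Face H A W R B q f t r := by
  classical
  unfold KK
  rw [mem_filter]

theorem KK_sub : KK H A W R B q f ⊆ B := fun _ ht => (mem_KK.mp ht).1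

/-- structure of a face -/
theorem D3.face (h : D3 H P A W R B q f) {t r : Finset V} (ht : t ∈ B)
    (hr : Face H A W R B q f t r) : ∃ g1 g2 : Finset V, g1 ∈ prs t ∧ g1 ∉ prs (q t) ∧
      g2 ∈ prs (q t) ∧ g2 ∉ prs t ∧ prs r = {g1, g2, symmDiff t (q t)} :=
  geo (h.tr r hr.1) (h.trB ht) (h.trq ht) (h.tq ht) (h.ft t ht) (h.fq t ht) hr.2.2.2.2.1
    hr.2.2.2.2.2 (hr.2.2.2.1 t ht)

theorem D3.opp (h : D3 H P A W R B q f) {t : Finset V} (ht : t ∈ B) :
    (symmDiff t (q t)).card = 2 :=
  (opp_card (h.trB ht) (h.trq ht) (h.tq ht) (h.ft t ht) (h.fq t ht)).1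

theorem D3.cardW (h : D3 H P A W R B q f) : (W \ B.image q).card + B.card = W.card := by
  rw [card_sdiff_of_subset h.imW, h.imcard]
  have := card_le_card h.imW
  rw [h.imcard] at this
  omega

theorem D3.cardQ (h : D3 H P A W R B q f) :
    ((W ∪ R) \ B.image q).card + B.card = W.card + R.card := by
  have hs : B.image q ⊆ W ∪ R := h.imW.trans subset_union_left
  rw [card_sdiff_of_subset hs, h.imcard, card_union_of_disjoint h.WR]
  have := card_le_card hs
  rw [h.imcard, card_union_of_disjoint h.WR] at this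
  omega

/-- cover (iii): `τ ≤ 3ν - 2y + k` -/
theorem D3.cover3 (h : D3 H P A W R B q f) :
    ∃ C, Cov H C ∧ C.card + 2 * B.card ≤ 3 * P.card + (KK H A W R B q f).card := by
  refine ⟨EE A ∪ (EE ((W ∪ R) \ B.image q) ∪ (B.image f ∪
    (KK H A W R B q f).image fun t => symmDiff t (q t))), ⟨?_, ?_⟩, ?_⟩
  · intro c hc
    rcases mem_union.mp hc with hc | hc
    · exact card_of_mem_EE hc
    rcases mem_union.mp hc with hc | hc
    · exact card_of_mem_EE hc
    rcases mem_union.mp hc with hc | hc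
    · obtain ⟨t, ht, rfl⟩ := mem_image.mp hc
      exact (mem_prs.mp (h.ft t ht)).2
    · obtain ⟨t, ht, rfl⟩ := mem_image.mp hc
      exact h.opp (KK_sub ht)
  · intro s hs
    by_cases hA : Disjoint (prs s) (EE A)
    swap
    · obtain ⟨g, hg1, hg2⟩ := not_disjoint_iff.mp hA
      exact ⟨g, mem_union_left _ hg2, hg1⟩
    by_cases hav : Disjoint (prs s) (EE ((W ∪ R) \ B.image q))
    swap
    · obtain ⟨g, hg1, hg2⟩ := not_disjoint_iff.mp hav
      exact ⟨g, mem_union_right _ (mem_union_left _ hg2), hg1⟩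
    by_cases hf : ∀ t ∈ B, f t ∉ prs s
    swap
    · push Not at hf
      obtain ⟨t, ht, hts⟩ := hf
      exact ⟨f t, mem_union_right _ (mem_union_right _ (mem_union_left _
        (mem_image_of_mem f ht))), hts⟩
    have hh : ∃ t ∈ B, ¬ Disjoint (prs s) (prs t) ∧ ¬ Disjoint (prs s) (prs (q t)) := by
      rcases h.toD1.cases hs hA with h2 | h3
      · refine h.hits2 h2 ?_
        exact disjoint_of_subset_right
          (EE_mono (sdiff_subset_sdiff subset_union_left subset_rfl)) hav
      · exact h.hits3 h3 hav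
    obtain ⟨t, ht, h1, h2⟩ := hh
    have hF : Face H A W R B q f t s := ⟨hs, hA, hav, hf, h1, h2⟩
    obtain ⟨g1, g2, _, _, _, _, he⟩ := h.face ht hF
    refine ⟨symmDiff t (q t), ?_, by rw [he]; simp⟩
    exact mem_union_right _ (mem_union_right _ (mem_union_right _
      (mem_image_of_mem (fun t => symmDiff t (q t)) (mem_KK.mpr ⟨ht, s, hF⟩))))
  · have c1 : (EE A).card ≤ 3 * A.card := card_EE_le (fun s hs => h.tr s (h.AH s hs))
    have c2 : (EE ((W ∪ R) \ B.image q)).card ≤ 3 * ((W ∪ R) \ B.image q).card :=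
      card_EE_le (fun s hs => h.trQ s (mem_sdiff.mp hs).1)
    have c3 := h.cardQ
    have c4 : (B.image f).card ≤ B.card := card_image_le
    have c5 : ((KK H A W R B q f).image fun t => symmDiff t (q t)).card ≤
      (KK H A W R B q f).card := card_image_le
    have c6 := h.total
    have u1 := card_union_le (EE A) (EE ((W ∪ R) \ B.image q) ∪ (B.image f ∪
      (KK H A W R B q f).image fun t => symmDiff t (q t)))
    have u2 := card_union_le (EE ((W ∪ R) \ B.image q)) (B.image f ∪
      (KK H A W R B q f).image fun t => symmDiff t (q t))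
    have u3 := card_union_le (B.image f) ((KK H A W R B q f).image fun t => symmDiff t (q t))
    omega

/-- the cover of `Y` -/
noncomputable def CY (H A W R B : Finset (Finset V)) (q f : Finset V → Finset V) :
    Finset (Finset V) :=
  (B.biUnion fun t => (prs t).erase (f t)) ∪ (B \ KK H A W R B q f).image f

theorem D3.CY_card (h : D3 H P A W R B q f) :
    (CY H A W R B q f).card + (KK H A W R B q f).card ≤ 3 * B.card := by
  have c1 : (B.biUnion fun t => (prs t).erase (f t)).card ≤ 2 * B.card := by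
    refine le_trans card_biUnion_le ?_
    have : ∀ t ∈ B, ((prs t).erase (f t)).card = 2 := by
      intro t ht
      rw [card_erase_of_mem (h.ft t ht), card_prs (h.trB ht)]
    rw [sum_congr rfl this]
    simp [mul_comm]
  have c2 : ((B \ KK H A W R B q f).image f).card ≤ (B \ KK H A W R B q f).card := card_image_le
  have c3 : (B \ KK H A W R B q f).card + (KK H A W R B q f).card = B.card :=
    card_sdiff_add_card_eq_card KK_sub
  have u1 := card_union_le (B.biUnion fun t => (prs t).erase (f t))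
    ((B \ KK H A W R B q f).image f)
  unfold CY
  omega

theorem D3.CY_pair (h : D3 H P A W R B q f) : ∀ c ∈ CY H A W R B q f, c.card = 2 := by
  intro c hc
  rcases mem_union.mp hc with hc | hc
  · rw [mem_biUnion] at hc
    obtain ⟨t, ht, hc⟩ := hc
    exact (mem_prs.mp (mem_of_mem_erase hc)).2
  · obtain ⟨t, ht, rfl⟩ := mem_image.mp hc
    exact (mem_prs.mp (h.ft t (mem_sdiff.mp ht).1)).2

/-- Lemma 3': `Y` is covered -/
theorem D3.CY_cov (h : D3 H P A W R B q f) {s : Finset V} (hs : s ∈ YY H P A (W ∪ R)) :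
    ∃ c ∈ CY H A W R B q f, c ∈ prs s := by
  by_contra hno
  push Not at hno
  have hs2 : s ∈ TT2 H P A := (mem_YY.mp hs).1
  have hs3 : s.card = 3 := h.tr2 s hs2
  -- ports of members of `B` are not in `s`
  have hport : ∀ t ∈ B, ∀ g ∈ prs t, g ∈ prs s → g = f t := by
    intro t ht g hg hgs
    by_contra hne
    exact hno g (mem_union_left _ (mem_biUnion.mpr ⟨t, ht, mem_erase.mpr ⟨hne, hg⟩⟩)) hgs
  obtain ⟨t, ht, hst⟩ := hit_EE.mp (h.maxB s hs)
  obtain ⟨g, hgs, hgt⟩ := hit_iff.mp hst
  have hft : f t ∈ prs s := by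
    rw [← hport t ht g hgt hgs]
    exact hgs
  have hK : t ∈ KK H A W R B q f := by
    by_contra hK
    exact hno (f t) (mem_union_right _ (mem_image_of_mem f (mem_sdiff.mpr ⟨ht, hK⟩))) hft
  obtain ⟨_, r, hr⟩ := mem_KK.mp hK
  obtain ⟨g1, g2, hg1, hg1q, hg2, hg2t, he⟩ := h.face ht hr
  have hr3 : r.card = 3 := h.tr r hr.1
  have htQ : q t ∈ W ∪ R := mem_union_left _ (h.qW t ht)
  -- pairs of `s` in `E(Q)`
  have slab : ∀ g ∈ prs s, g ∈ EE (W ∪ R) → g = f t := fun g hg hg' =>
    h.toD1.lab hs2 hg (YY_lab h.toD2 hs hg hg') hft (h.fP ht)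
  have s1 : ∀ x ∈ W ∪ R, x ≠ q t → Disjoint (prs s) (prs x) := by
    intro x hx hne
    by_contra hc
    obtain ⟨g, hg, hg'⟩ := hit_iff.mp hc
    have e := slab g hg (prs_sub_EE hx hg')
    subst e
    exact hne (h.pkQ.uniq hx htQ hg' (h.fq t ht))
  have s2 : ∀ t' ∈ B, t' ≠ t → Disjoint (prs s) (prs t') := by
    intro t' ht' hne
    by_contra hc
    obtain ⟨g, hg, hg'⟩ := hit_iff.mp hc
    have e := hport t' ht' g hg' hg
    subst e
    have e2 := h.toD1.lab hs2 hg (h.fP ht') hft (h.fP ht)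
    exact hne (h.pkB.uniq ht' ht (h.ft t' ht') (by rw [e2]; exact h.ft t ht))
  have hg1f : g1 ≠ f t := fun e => hg1q (by rw [e]; exact h.fq t ht)
  have hg2f : g2 ≠ f t := fun e => hg2t (by rw [e]; exact h.ft t ht)
  have g1s : g1 ∉ prs s := fun hh => hg1f (hport t ht g1 hg1 hh)
  have g2s : g2 ∉ prs s := fun hh => hg2f (slab g2 hh (prs_sub_EE htQ hg2))
  have os : symmDiff t (q t) ∉ prs s := fun hh =>
    no_four hs3 (h.trB ht) (h.trq ht) (h.tq ht) (h.ft t ht) (h.fq t ht) hft hh
  have drs : Disjoint (prs r) (prs s) := disj3 he g1s g2s os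
  have g1Q : g1 ∉ EE (W ∪ R) := fun hh => hg1f (h.uf ht hg1 hh)
  have g2x : ∀ x ∈ W ∪ R, x ≠ q t → g2 ∉ prs x := fun x hx hne hh =>
    hne (h.pkQ.uniq hx htQ hh hg2)
  have qtR : q t ∉ R := fun hh => disjoint_left.mp h.WR (h.qW t ht) hh
  by_cases hoQ : symmDiff t (q t) ∈ EE (W ∪ R)
  · -- case (b)
    obtain ⟨x, hx, hox⟩ := mem_EE.mp hoQ
    have hor : symmDiff t (q t) ∈ prs r := by rw [he]; simp
    have hxi : x ∈ B.image q := by
      by_contra hxi
      exact (hit_iff.mpr ⟨_, hor, hox⟩) (disj_EE.mp hr.2.2.1 x (mem_sdiff.mpr ⟨hx, hxi⟩))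
    obtain ⟨t', ht', rfl⟩ := mem_image.mp hxi
    have htt : t' ≠ t := by
      rintro rfl
      exact no_four (h.trq ht') (h.trB ht') (h.trq ht') (h.tq ht') (h.ft _ ht') (h.fq _ ht')
        (h.fq _ ht') hox
    have hqq : q t' ≠ q t := fun e => htt (h.inj (by exact_mod_cast ht') (by exact_mod_cast ht) e)
    have hof : symmDiff t (q t) ≠ f t' := fun e => hr.2.2.2.1 t' ht' (by rw [← e]; exact hor)
    have hoP : symmDiff t (q t) ∈ EE P := h.portq ht' hox hof
    have hrP : prs r ⊆ EE P := by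
      rw [he]
      intro c hc
      simp only [mem_insert, mem_singleton] at hc
      rcases hc with rfl | rfl | rfl
      · exact h.port ht hg1 hg1f
      · exact h.portq ht hg2 hg2f
      · exact hoP
    have hr3' : r ∈ TT3 H P A := mem_TT3.mpr ⟨hr.1, hr.2.1, hrP⟩
    have qtR' : q t' ∉ R := fun hh => disjoint_left.mp h.WR (h.qW t' ht') hh
    have o_x : ∀ x ∈ W ∪ R, x ≠ q t' → symmDiff t (q t) ∉ prs x := fun x hx hne hh =>
      hne (h.pkQ.uniq hx (mem_union_left _ (h.qW t' ht')) hh hox)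
    -- the base
    have hW2 : ((W.erase (q t)).erase (q t')).card + 2 = W.card := by
      rw [card_erase_of_mem (mem_erase.mpr ⟨hqq, h.qW t' ht'⟩), card_erase_of_mem (h.qW t ht)]
      have : 1 < W.card := one_lt_card.mpr ⟨q t', h.qW t' ht', q t, h.qW t ht, hqq⟩
      omega
    have hbase : ∀ x ∈ ((W.erase (q t)).erase (q t')) ∪ R, x ∈ W ∪ R ∧ x ≠ q t ∧ x ≠ q t' := by
      intro x hx
      rcases mem_union.mp hx with hx | hx
      · rw [mem_erase, mem_erase] at hx
        exact ⟨mem_union_left _ hx.2.2, hx.2.1, hx.1⟩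
      · exact ⟨mem_union_right _ hx, fun e => qtR (e ▸ hx), fun e => qtR' (e ▸ hx)⟩
    have pk0 : Pk (((W.erase (q t)).erase (q t')) ∪ R) := h.pkQ.mono fun x hx => (hbase x hx).1
    have d1 : Disjoint (prs r) (EE (((W.erase (q t)).erase (q t')) ∪ R)) := by
      rw [disj_EE]
      intro x hx
      obtain ⟨hx1, hx2, hx3⟩ := hbase x hx
      exact disj3 he (fun hh => g1Q (prs_sub_EE hx1 hh)) (g2x x hx1 hx2) (o_x x hx1 hx3)
    have pk1 := pk0.insert d1
    have d2 : Disjoint (prs s) (EE (insert r (((W.erase (q t)).erase (q t')) ∪ R))) := by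
      refine disj_insert drs.symm ?_
      rw [disj_EE]
      intro x hx
      obtain ⟨hx1, hx2, hx3⟩ := hbase x hx
      exact s1 x hx1 hx2
    have pk2 := pk1.insert d2
    have d3 : Disjoint (prs t') (EE (insert s (insert r (((W.erase (q t)).erase (q t')) ∪ R)))) := by
      refine disj_insert (s2 t' ht' htt).symm (disj_insert ?_ ?_)
      · refine (disj3 he ?_ ?_ ?_).symm
        · intro hh
          exact htt (h.pkB.uniq ht' ht hh hg1)
        · intro hh
          have e := h.uf ht' hh (prs_sub_EE htQ hg2)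
          exact hr.2.2.2.1 t' ht' (by rw [← e, he]; simp)
        · intro hh
          exact hof (h.uf ht' hh hoQ)
      · rw [disj_EE]
        intro x hx
        obtain ⟨hx1, hx2, hx3⟩ := hbase x hx
        exact h.dq ht' x hx1 hx3
    have pk3 := pk2.insert d3
    have ex : insert t' (insert s (insert r (((W.erase (q t)).erase (q t')) ∪ R))) =
        (insert t' (insert s ((W.erase (q t)).erase (q t')))) ∪ insert r R := by
      ext c
      simp only [mem_insert, mem_union]
      tauto
    rw [ex] at pk3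
    have hns : s ∉ (W.erase (q t)).erase (q t') := by
      intro hh
      have := hbase s (mem_union_left _ hh)
      exact hit_self hs3 (s1 s this.1 this.2.1)
    have hnt : t' ∉ insert s ((W.erase (q t)).erase (q t')) := by
      intro hh
      rcases mem_insert.mp hh with hh | hh
      · exact hit_self hs3 (by have := s2 t' ht' htt; rwa [hh] at this)
      · exact h.BQ ht' (hbase t' (mem_union_left _ hh)).1
    have hc1 : (insert t' (insert s ((W.erase (q t)).erase (q t')))).card = W.card := by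
      rw [card_insert_of_notMem hnt, card_insert_of_notMem hns]
      omega
    have hrR : r ∉ R := fun hh => g1Q (prs_sub_EE (mem_union_right _ hh) (by rw [he]; simp))
    have := h.O2 (insert t' (insert s ((W.erase (q t)).erase (q t'))))
      (insert_subset (h.B2 ht') (insert_subset hs2 fun x hx => h.W2 (by
        rw [mem_erase, mem_erase] at hx
        exact hx.2.2))) (insert r R) (insert_subset hr3' h.R3) pk3 hc1
    rw [card_insert_of_notMem hrR] at this
    omega
  · -- case (a)
    have hbase : ∀ x ∈ (W.erase (q t)) ∪ R, x ∈ W ∪ R ∧ x ≠ q t := by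
      intro x hx
      rcases mem_union.mp hx with hx | hx
      · rw [mem_erase] at hx
        exact ⟨mem_union_left _ hx.2, hx.1⟩
      · exact ⟨mem_union_right _ hx, fun e => qtR (e ▸ hx)⟩
    have pk0 : Pk ((W.erase (q t)) ∪ R) := h.pkQ.mono fun x hx => (hbase x hx).1
    have d1 : Disjoint (prs r) (EE ((W.erase (q t)) ∪ R)) := by
      rw [disj_EE]
      intro x hx
      obtain ⟨hx1, hx2⟩ := hbase x hx
      exact disj3 he (fun hh => g1Q (prs_sub_EE hx1 hh)) (g2x x hx1 hx2)
        (fun hh => hoQ (prs_sub_EE hx1 hh))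
    have pk1 := pk0.insert d1
    have d2 : Disjoint (prs s) (EE (insert r ((W.erase (q t)) ∪ R))) := by
      refine disj_insert drs.symm ?_
      rw [disj_EE]
      intro x hx
      obtain ⟨hx1, hx2⟩ := hbase x hx
      exact s1 x hx1 hx2
    have pk2 := pk1.insert d2
    have hns : s ∉ W.erase (q t) := by
      intro hh
      have := hbase s (mem_union_left _ hh)
      exact hit_self hs3 (s1 s this.1 this.2)
    have hcW : (W.erase (q t)).card + 1 = W.card := card_erase_add_one (h.qW t ht)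
    rcases h.toD1.cases hr.1 hr.2.1 with h2 | h3
    · -- type 2: a larger packing of triples of type 2
      have hnr : r ∉ insert s (W.erase (q t)) := by
        intro hh
        rcases mem_insert.mp hh with hh | hh
        · exact hit_self hs3 (by rwa [hh] at drs)
        · exact hit_self hr3 (disj_EE.mp d1 r (mem_union_left _ hh))
      have := h.O1 (insert r (insert s (W.erase (q t))))
        (insert_subset h2 (insert_subset hs2 fun x hx => h.W2 (mem_of_mem_erase hx)))
        (pk2.mono (by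
          intro x hx
          simp only [mem_insert, mem_union] at hx ⊢
          tauto))
      rw [card_insert_of_notMem hnr, card_insert_of_notMem hns] at this
      omega
    · have ex : insert s (insert r ((W.erase (q t)) ∪ R)) =
          (insert s (W.erase (q t))) ∪ insert r R := by
        ext c
        simp only [mem_insert, mem_union]
        tauto
      rw [ex] at pk2
      have hrR : r ∉ R := fun hh => g1Q (prs_sub_EE (mem_union_right _ hh) (by rw [he]; simp))
      have := h.O2 (insert s (W.erase (q t)))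
        (insert_subset hs2 fun x hx => h.W2 (mem_of_mem_erase hx)) (insert r R)
        (insert_subset h3 h.R3) pk2 (by rw [card_insert_of_notMem hns]; omega)
      rw [card_insert_of_notMem hrR] at this
      omega

/-- cover (ii): `τ ≤ 3ν - w + 3y - k` -/
theorem D3.cover2 (h : D3 H P A W R B q f) :
    ∃ C, Cov H C ∧ C.card + W.card + (KK H A W R B q f).card ≤ 3 * P.card + 3 * B.card := by
  refine ⟨EE A ∪ (((W.biUnion fun s => prs s ∩ EE P) ∪ EE R) ∪ CY H A W R B q f),
    ⟨?_, ?_⟩, ?_⟩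
  · intro c hc
    rcases mem_union.mp hc with hc | hc
    · exact card_of_mem_EE hc
    rcases mem_union.mp hc with hc | hc
    · rcases mem_union.mp hc with hc | hc
      · rw [mem_biUnion] at hc
        obtain ⟨t, ht, hc⟩ := hc
        exact (mem_prs.mp (mem_inter.mp hc).1).2
      · exact card_of_mem_EE hc
    · exact h.CY_pair c hc
  · intro s hs
    by_cases hA : Disjoint (prs s) (EE A)
    swap
    · obtain ⟨g, hg1, hg2⟩ := not_disjoint_iff.mp hA
      exact ⟨g, mem_union_left _ hg2, hg1⟩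
    have key : ∀ g ∈ prs s, g ∈ EE P → g ∈ EE (W ∪ R) → ∃ c ∈ EE A ∪
        (((W.biUnion fun s => prs s ∩ EE P) ∪ EE R) ∪ CY H A W R B q f), c ∈ prs s := by
      intro g h1 h2 h3
      refine ⟨g, mem_union_right _ (mem_union_left _ ?_), h1⟩
      rw [EE_union, mem_union] at h3
      rcases h3 with h3 | h3
      · obtain ⟨x, hx, hgx⟩ := mem_EE.mp h3
        exact mem_union_left _ (mem_biUnion.mpr ⟨x, hx, mem_inter.mpr ⟨hgx, h2⟩⟩)
      · exact mem_union_right _ h3
    rcases h.toD1.cases hs hA with h2 | h3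
    · by_cases hY : Disjoint (prs s ∩ EE P) (EE (W ∪ R))
      · obtain ⟨c, hc, hcs⟩ := h.CY_cov (mem_YY.mpr ⟨h2, hY⟩)
        exact ⟨c, mem_union_right _ (mem_union_right _ hc), hcs⟩
      · obtain ⟨g, hg1, hg2⟩ := not_disjoint_iff.mp hY
        rw [mem_inter] at hg1
        exact key g hg1.1 hg1.2 hg2
    · obtain ⟨g, hg1, hg2⟩ := not_disjoint_iff.mp (h.hit3 h.W2 h.pkQ rfl h3)
      exact key g hg1 ((mem_TT3.mp h3).2.2 hg1) hg2
  · have c1 : (EE A).card ≤ 3 * A.card := card_EE_le (fun s hs => h.tr s (h.AH s hs))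
    have c2 : (EE R).card ≤ 3 * R.card := card_EE_le (fun s hs => h.tr3 s (h.R3 hs))
    have c3 : (W.biUnion fun s => prs s ∩ EE P).card ≤ 2 * W.card := by
      refine le_trans card_biUnion_le ?_
      rw [sum_congr rfl (fun t ht => (mem_TT2.mp (h.W2 ht)).2.2)]
      simp [mul_comm]
    have c4 := h.CY_card
    have c6 := h.total
    have u1 := card_union_le (EE A)
      (((W.biUnion fun s => prs s ∩ EE P) ∪ EE R) ∪ CY H A W R B q f)
    have u2 := card_union_le ((W.biUnion fun s => prs s ∩ EE P) ∪ EE R) (CY H A W R B q f)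
    have u3 := card_union_le (W.biUnion fun s => prs s ∩ EE P) (EE R)
    omega

/-- the cover of the triples of type 2 -/
noncomputable def C2 (H A W R B : Finset (Finset V)) (q f : Finset V → Finset V) :
    Finset (Finset V) :=
  EE (W \ B.image q) ∪ (B.image f ∪ (KK H A W R B q f).image fun t => symmDiff t (q t))

theorem D3.C2_card (h : D3 H P A W R B q f) :
    (C2 H A W R B q f).card + 2 * B.card ≤ 3 * W.card + (KK H A W R B q f).card := by
  have c2 : (EE (W \ B.image q)).card ≤ 3 * (W \ B.image q).card :=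
    card_EE_le (fun s hs => h.tr2 s (h.W2 (mem_sdiff.mp hs).1))
  have c3 := h.cardW
  have c4 : (B.image f).card ≤ B.card := card_image_le
  have c5 : ((KK H A W R B q f).image fun t => symmDiff t (q t)).card ≤
    (KK H A W R B q f).card := card_image_le
  have u2 := card_union_le (EE (W \ B.image q)) (B.image f ∪
    (KK H A W R B q f).image fun t => symmDiff t (q t))
  have u3 := card_union_le (B.image f) ((KK H A W R B q f).image fun t => symmDiff t (q t))
  unfold C2
  omega

theorem D3.C2_pair (h : D3 H P A W R B q f) : ∀ c ∈ C2 H A W R B q f, c.card = 2 := by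
  intro c hc
  rcases mem_union.mp hc with hc | hc
  · exact card_of_mem_EE hc
  rcases mem_union.mp hc with hc | hc
  · obtain ⟨t, ht, rfl⟩ := mem_image.mp hc
    exact (mem_prs.mp (h.ft t ht)).2
  · obtain ⟨t, ht, rfl⟩ := mem_image.mp hc
    exact h.opp (KK_sub ht)

theorem D3.C2_cov (h : D3 H P A W R B q f) {s : Finset V} (hs : s ∈ TT2 H P A) :
    ∃ c ∈ C2 H A W R B q f, c ∈ prs s := by
  by_cases hav : Disjoint (prs s) (EE (W \ B.image q))
  swap
  · obtain ⟨g, hg1, hg2⟩ := not_disjoint_iff.mp hav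
    exact ⟨g, mem_union_left _ hg2, hg1⟩
  by_cases hf : ∀ t ∈ B, f t ∉ prs s
  swap
  · push Not at hf
    obtain ⟨t, ht, hts⟩ := hf
    exact ⟨f t, mem_union_right _ (mem_union_left _ (mem_image_of_mem f ht)), hts⟩
  obtain ⟨t, ht, h1, h2⟩ := h.hits2 hs hav
  have hs3 := h.tr2 s hs
  obtain ⟨g1, g2, hg1, hg1q, hg2, hg2t, he⟩ := geo hs3 (h.trB ht) (h.trq ht) (h.tq ht)
    (h.ft t ht) (h.fq t ht) h1 h2 (hf t ht)
  have hg1f : g1 ≠ f t := fun e => hg1q (by rw [e]; exact h.fq t ht)
  have hg2f : g2 ≠ f t := fun e => hg2t (by rw [e]; exact h.ft t ht)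
  have hF : Face H A W R B q f t s := by
    refine ⟨(mem_TT2.mp hs).1, (mem_TT2.mp hs).2.1, ?_, hf, h1, h2⟩
    have hR : Disjoint (prs s) (EE R) := by
      refine disj3 he ?_ ?_ ?_
      · intro hh
        exact hg1f (h.uf ht hg1 (EE_mono subset_union_right hh))
      · intro hh
        obtain ⟨x, hx, hgx⟩ := mem_EE.mp hh
        have e := h.pkQ.uniq (mem_union_right _ hx) (mem_union_left _ (h.qW t ht)) hgx hg2
        rw [e] at hx
        exact disjoint_left.mp h.WR (h.qW t ht) hx
      · intro hh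
        obtain ⟨x, hx, hgx⟩ := mem_EE.mp hh
        have hoP : symmDiff t (q t) ∈ EE P := (mem_TT3.mp (h.R3 hx)).2.2 hgx
        refine TT_disj h.toD1 hs (mem_TT3.mpr ⟨(mem_TT2.mp hs).1, (mem_TT2.mp hs).2.1, ?_⟩)
        rw [he]
        intro c hc
        simp only [mem_insert, mem_singleton] at hc
        rcases hc with rfl | rfl | rfl
        · exact h.port ht hg1 hg1f
        · exact h.portq ht hg2 hg2f
        · exact hoP
    rw [disj_EE]
    intro x hx
    rw [mem_sdiff, mem_union] at hx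
    rcases hx.1 with hx1 | hx1
    · exact disj_EE.mp hav x (mem_sdiff.mpr ⟨hx1, hx.2⟩)
    · exact disj_EE.mp hR x hx1
  refine ⟨symmDiff t (q t), ?_, by rw [he]; simp⟩
  exact mem_union_right _ (mem_union_right _
    (mem_image_of_mem (fun t => symmDiff t (q t)) (mem_KK.mpr ⟨ht, s, hF⟩)))

end

end Pool.Agent.TZ
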